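import Mathlib

/-!
# A well-filtered determined space whose Smyth power space is not well-filtered determined

`TopW`, the class of well-filtered spaces, is adequate and a Smyth category.  The space `XX` is
`T x N`, `T` the Cantor space, with the open sets whose columns are open in `T` and whose rows are
empty or cofinite.  It is well-filtered determined, but in its Smyth power space the irreducible
closed set of all compact `K` which project onto `T` is not a well-filtered determined set.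
-/

set_option autoImplicit false

namespace Pool.Agent.Results.MP_360cb4_gt.NotDetermined

open Set TopologicalSpace

/-- A class of topological spaces: the objects of a full subcategory. -/
abbrev SpaceClass : Type 1 := (Y : Type) → TopologicalSpace Y → Prop

/-- Saturated sets: upper sets of the specialization order `x ≤ y ↔ x ∈ closure {y}`. -/
def IsSat {X : Type} [TopologicalSpace X] (A : Set X) : Prop :=
  ∀ x ∈ A, ∀ y, x ∈ closure {y} → y ∈ A

/-- The set `K(X)` of nonempty compact saturated subsets, the points of `P_S(X)`. -/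
def KS (X : Type) [TopologicalSpace X] : Type :=
  {K : Set X // K.Nonempty ∧ IsCompact K ∧ IsSat K}

/-- The Smyth power space `P_S(X)`: the upper Vietoris topology, with base the sets
`Box U = {K | K ⊆ U}`. -/
instance smythTopology (X : Type) [TopologicalSpace X] : TopologicalSpace (KS X) :=
  generateFrom {S | ∃ U : Set X, IsOpen U ∧ S = {K : KS X | K.1 ⊆ U}}

/-- The points of `P_H(G)`. -/
def PH {X : Type} (G : Set (Set X)) : Type := {A : Set X // A ∈ G}

/-- The topology of `P_H(G)`, given by the sets `Diamond U = {A | A ∩ U ≠ ∅}`. -/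
instance hoareTopology {X : Type} [TopologicalSpace X] (G : Set (Set X)) :
    TopologicalSpace (PH G) :=
  generateFrom {S | ∃ U : Set X, IsOpen U ∧ S = {A : PH G | (A.1 ∩ U).Nonempty}}

/-- Sober spaces. -/
def IsSober (X : Type) [TopologicalSpace X] : Prop :=
  T0Space X ∧ ∀ F : Set X, IsClosed F → IsIrreducible F → ∃! x, F = closure {x}

/-- `K` is (the object class of) a full subcategory of `Top_0` containing all sober spaces. -/
def IsBaseClass (K : SpaceClass) : Prop :=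
  (∀ (Y : Type) (s : TopologicalSpace Y), K Y s → T0Space Y) ∧
    ∀ (Y : Type) (s : TopologicalSpace Y), IsSober Y → K Y s

/-- `K`-determined subsets. -/
def IsDetSet (K : SpaceClass) {X : Type} [TopologicalSpace X] (A : Set X) : Prop :=
  ∀ (Y : Type) (s : TopologicalSpace Y) (f : X → Y), K Y s → Continuous f →
    ∃! y : Y, closure (f '' A) = closure {y}

/-- `K(X)`: the closed `K`-determined subsets of `X`. -/
def DetClosed (K : SpaceClass) (X : Type) [TopologicalSpace X] : Set (Set X) :=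
  {A | IsClosed A ∧ IsDetSet K A}

/-- `Irr_c(X)`: the irreducible closed subsets of `X`. -/
def IrrClosed (X : Type) [TopologicalSpace X] : Set (Set X) :=
  {A | IsClosed A ∧ IsIrreducible A}

/-- `K`-determined spaces: `Irr_c(X) = K(X)`. -/
def IsDetSpace (K : SpaceClass) (X : Type) [TopologicalSpace X] : Prop :=
  IrrClosed X = DetClosed K X

/-- `K` is adequate: `P_H(K(X))` is a `K`-space for every `T0` space `X`. -/
def IsAdequate (K : SpaceClass) : Prop :=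
  ∀ (X : Type) [TopologicalSpace X], T0Space X → K (PH (DetClosed K X)) inferInstance

/-- `K` is a Smyth category: `P_S(X)` is a `K`-space whenever `X` is. -/
def IsSmyth (K : SpaceClass) : Prop :=
  ∀ (X : Type) (t : TopologicalSpace X), K X t → K (KS X) inferInstance

/-- The class `Top_w` of well-filtered `T0` spaces: if a nonempty family of nonempty compact
saturated sets, directed under reverse inclusion, has its intersection inside an open set `U`, then
some member lies in `U`. -/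
def TopW : SpaceClass := fun Y _ =>
  T0Space Y ∧ ∀ (𝒦 : Set (Set Y)) (U : Set Y),
    (∀ K ∈ 𝒦, K.Nonempty ∧ IsCompact K ∧ IsSat K) → 𝒦.Nonempty →
    (∀ K₁ ∈ 𝒦, ∀ K₂ ∈ 𝒦, ∃ K₃ ∈ 𝒦, K₃ ⊆ K₁ ∩ K₂) →
    IsOpen U → ⋂₀ 𝒦 ⊆ U → ∃ K ∈ 𝒦, K ⊆ U

section General

variable {Y : Type} [TopologicalSpace Y]

theorem isSat_iff {A : Set Y} :
    IsSat A ↔ ∀ y : Y, (∀ V : Set Y, IsOpen V → A ⊆ V → y ∈ V) → y ∈ A := by
  constructor
  · intro h y hy
    by_contra hcon
    have := hy (closure {y})ᶜ isClosed_closure.isOpen_compl (fun x hx hxy => hcon (h x hx y hxy))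
    exact this (subset_closure rfl)
  · intro h x hx y hxy
    apply h
    intro V hV hAV
    rw [mem_closure_iff] at hxy
    obtain ⟨z, hz, hzy⟩ := hxy V hV (hAV hx)
    rw [mem_singleton_iff] at hzy
    exact hzy ▸ hz

/-- Saturation. -/
def sat (S : Set Y) : Set Y := {y | ∀ V : Set Y, IsOpen V → S ⊆ V → y ∈ V}

theorem subset_sat (S : Set Y) : S ⊆ sat S := fun _ hy _ _ hV => hV hy

theorem sat_subset {S V : Set Y} (hV : IsOpen V) (h : S ⊆ V) :
    sat S ⊆ V := fun _ hy => hy V hV h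

theorem sat_mono {S T : Set Y} (h : S ⊆ T) : sat S ⊆ sat T :=
  fun _ hy V hV hTV => hy V hV (h.trans hTV)

theorem sat_compact {S : Set Y} (hS : IsCompact S) : IsCompact (sat S) := by
  rw [isCompact_iff_finite_subcover]
  intro ι U hU hcov
  obtain ⟨t, ht⟩ := hS.elim_finite_subcover U hU ((subset_sat S).trans hcov)
  exact ⟨t, sat_subset (isOpen_biUnion fun i _ => hU i) ht⟩

theorem isSat_sat (S : Set Y) : IsSat (sat S) :=
  isSat_iff.mpr fun _ hy V hV hSV => hy V hV (sat_subset hV hSV)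

theorem unique_point (h0 : T0Space Y) {A : Set Y} {y : Y} (h : closure A = closure {y}) :
    ∃! y : Y, closure A = closure {y} := by
  refine ⟨y, h, fun z hz => ?_⟩
  have : Inseparable z y := by
    rw [inseparable_iff_closure_eq, ← h]
    exact hz.symm
  exact this.eq

theorem exists_minimal {𝒦 : Set (Set Y)}
    (hcomp : ∀ K ∈ 𝒦, IsCompact K) {D : Set Y} (hD : IsClosed D)
    (hm : ∀ K ∈ 𝒦, (D ∩ K).Nonempty) :
    ∃ C, C ⊆ D ∧ Minimal (· ∈ {C : Set Y | IsClosed C ∧ ∀ K ∈ 𝒦, (C ∩ K).Nonempty}) C := by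
  refine zorn_superset_nonempty _ ?_ D ⟨hD, hm⟩
  intro c hc hchain hcne
  refine ⟨⋂₀ c, ⟨isClosed_sInter fun Z hZ => (hc hZ).1, fun K hK => ?_⟩,
    fun s hs => sInter_subset_of_mem hs⟩
  by_contra hcon
  rw [not_nonempty_iff_eq_empty] at hcon
  have : Nonempty c := hcne.to_subtype
  obtain ⟨i, hi⟩ := (hcomp K hK).elim_directed_family_closed (fun i : c => i.1)
    (fun i => (hc i.2).1) (by rw [← sInter_eq_iInter, inter_comm]; exact hcon) (by
      intro i j
      rcases hchain.total i.2 j.2 with h | h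
      · exact ⟨i, Subset.rfl, h⟩
      · exact ⟨j, h, Subset.rfl⟩)
  have := (hc i.2).2 K hK
  rw [inter_comm, hi] at this
  exact not_nonempty_empty this

/-- The package of facts about the minimal closed set of the topological Rudin lemma. -/
theorem rudin {𝒦 : Set (Set Y)} (hcomp : ∀ K ∈ 𝒦, IsCompact K) (hne : 𝒦.Nonempty)
    (hfil : ∀ K₁ ∈ 𝒦, ∀ K₂ ∈ 𝒦, ∃ K₃ ∈ 𝒦, K₃ ⊆ K₁ ∩ K₂) {U : Set Y} (hU : IsOpen U)
    (hcon : ∀ K ∈ 𝒦, ¬ K ⊆ U) :
    ∃ C, C ⊆ Uᶜ ∧ IsClosed C ∧ IsIrreducible C ∧ (∀ K ∈ 𝒦, (C ∩ K).Nonempty) ∧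
      (∀ V : Set Y, IsOpen V → (C ∩ V).Nonempty → ∃ K ∈ 𝒦, C ∩ K ⊆ V) ∧
      ∀ D : Set Y, IsClosed D → (∀ K ∈ 𝒦, (C ∩ D ∩ K).Nonempty) → C ⊆ D := by
  obtain ⟨C, hCU, hC⟩ := exists_minimal hcomp hU.isClosed_compl (by
    intro K hK
    obtain ⟨x, hx1, hx2⟩ := not_subset.mp (hcon K hK)
    exact ⟨x, hx2, hx1⟩)
  have hCcl : IsClosed C := hC.prop.1
  have hCm : ∀ K ∈ 𝒦, (C ∩ K).Nonempty := hC.prop.2
  have hD : ∀ D : Set Y, IsClosed D → (∀ K ∈ 𝒦, (C ∩ D ∩ K).Nonempty) → C ⊆ D := by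
    intro D hD hDK
    have : C ∩ D = C := hC.eq_of_subset ⟨hCcl.inter hD, hDK⟩ inter_subset_left
    rw [← this]
    exact inter_subset_right
  have hc : ∀ V : Set Y, IsOpen V → (C ∩ V).Nonempty → ∃ K ∈ 𝒦, C ∩ K ⊆ V := by
    intro V hV hn
    by_contra hcon2
    push Not at hcon2
    have : C ⊆ Vᶜ := by
      refine hD _ hV.isClosed_compl (fun K hK => ?_)
      obtain ⟨x, hx1, hx2⟩ := not_subset.mp (hcon2 K hK)
      exact ⟨x, ⟨hx1.1, hx2⟩, hx1.2⟩
    obtain ⟨x, hx1, hx2⟩ := hn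
    exact this hx1 hx2
  refine ⟨C, hCU, hCcl, ⟨?_, ?_⟩, hCm, hc, hD⟩
  · obtain ⟨K, hK⟩ := hne
    exact (hCm K hK).mono inter_subset_left
  · intro V1 V2 h1 h2 hn1 hn2
    obtain ⟨K1, hK1, hs1⟩ := hc V1 h1 hn1
    obtain ⟨K2, hK2, hs2⟩ := hc V2 h2 hn2
    obtain ⟨K3, hK3, hs3⟩ := hfil K1 hK1 K2 hK2
    obtain ⟨x, hx1, hx2⟩ := hCm K3 hK3
    exact ⟨x, hx1, hs1 ⟨hx1, (hs3 hx2).1⟩, hs2 ⟨hx1, (hs3 hx2).2⟩⟩

end General

/-- Sober spaces are well-filtered. -/
theorem sober_topW (Y : Type) (s : TopologicalSpace Y) (hY : IsSober Y) : TopW Y s := by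
  refine ⟨hY.1, ?_⟩
  intro 𝒦 U h𝒦 hne hfil hU hsub
  by_contra hcon
  push Not at hcon
  obtain ⟨C, hCU, hCcl, hCirr, hCm, -, -⟩ :=
    rudin (fun K hK => (h𝒦 K hK).2.1) hne hfil hU hcon
  obtain ⟨c, hc, -⟩ := hY.2 C hCcl hCirr
  have hcC : c ∈ C := by rw [hc]; exact subset_closure rfl
  apply hCU hcC
  apply hsub
  intro K hK
  obtain ⟨x, hx1, hx2⟩ := hCm K hK
  rw [hc] at hx1
  exact (h𝒦 K hK).2.2 x hx2 c hx1

theorem topW_base : IsBaseClass TopW := ⟨fun _ _ h => h.1, sober_topW⟩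

/-- Finite `T0` spaces are well-filtered. -/
theorem finite_topW (Y : Type) [s : TopologicalSpace Y] [Finite Y] (hY : T0Space Y) :
    TopW Y s := by
  refine ⟨hY, ?_⟩
  intro 𝒦 U _ hne hfil _ hsub
  obtain ⟨K, hK⟩ := (toFinite 𝒦).exists_minimal hne
  refine ⟨K, hK.prop, ?_⟩
  refine Subset.trans ?_ hsub
  intro x hx K' hK'
  obtain ⟨K3, hK3, h3⟩ := hfil K hK.prop K' hK'
  have h4 : K3 = K := hK.eq_of_subset hK3 (h3.trans inter_subset_left)
  rw [h4] at h3
  exact (h3 hx).2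

/-- Well-filtered determined sets are irreducible. -/
theorem detSet_irr {X : Type} [TopologicalSpace X] {A : Set X} (hA : IsDetSet TopW A) :
    IsIrreducible A := by
  have hkey : ∀ U V : Set X, IsOpen U → IsOpen V → ∃ y : Prop × Prop,
      closure ((fun x : X => ((x ∈ U : Prop), (x ∈ V : Prop))) '' A) = closure {y} := by
    intro U V hU hV
    obtain ⟨y, hy, -⟩ := hA (Prop × Prop) inferInstance
      (fun x : X => ((x ∈ U : Prop), (x ∈ V : Prop))) (finite_topW _ inferInstance)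
      ((continuous_Prop.mpr hU).prodMk (continuous_Prop.mpr hV))
    exact ⟨y, hy⟩
  constructor
  · obtain ⟨y, hy⟩ := hkey univ univ isOpen_univ isOpen_univ
    have h1 : y ∈ closure {y} := subset_closure rfl
    rw [← hy] at h1
    have h2 := closure_nonempty_iff.mp ⟨y, h1⟩
    exact image_nonempty.mp h2
  · intro U V hU hV hn1 hn2
    obtain ⟨y, hy⟩ := hkey U V hU hV
    have hop : IsOpen {True} := isOpen_singleton_true
    have hy1 : y.1 = True := by
      obtain ⟨x, hx, hxU⟩ := hn1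
      have h1 : ((x ∈ U : Prop), (x ∈ V : Prop)) ∈ closure {y} := by
        rw [← hy]; exact subset_closure ⟨x, hx, rfl⟩
      rw [mem_closure_iff] at h1
      obtain ⟨z, hz, hzy⟩ := h1 (Prod.fst ⁻¹' {True}) (hop.preimage continuous_fst)
        (by simp [hxU])
      rw [mem_singleton_iff] at hzy
      rw [← hzy]
      exact hz
    have hy2 : y.2 = True := by
      obtain ⟨x, hx, hxV⟩ := hn2
      have h1 : ((x ∈ U : Prop), (x ∈ V : Prop)) ∈ closure {y} := by
        rw [← hy]; exact subset_closure ⟨x, hx, rfl⟩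
      rw [mem_closure_iff] at h1
      obtain ⟨z, hz, hzy⟩ := h1 (Prod.snd ⁻¹' {True}) (hop.preimage continuous_snd)
        (by simp [hxV])
      rw [mem_singleton_iff] at hzy
      rw [← hzy]
      exact hz
    have h1 : y ∈ closure {y} := subset_closure rfl
    rw [← hy, mem_closure_iff] at h1
    obtain ⟨z, hz, ⟨x, hx, hxz⟩⟩ := h1 ({True} ×ˢ {True}) (hop.prod hop) ⟨hy1, hy2⟩
    rw [← hxz] at hz
    refine ⟨x, hx, ?_, ?_⟩
    · have : (x ∈ U) = True := hz.1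
      rw [this]; trivial
    · have : (x ∈ V) = True := hz.2
      rw [this]; trivial

section Smyth

variable {X : Type} [TopologicalSpace X]

theorem isOpen_boxKS {U : Set X} (hU : IsOpen U) : IsOpen {K : KS X | K.1 ⊆ U} :=
  TopologicalSpace.isOpen_generateFrom_of_mem ⟨U, hU, rfl⟩

theorem isOpenKS_iff {𝒪 : Set (KS X)} : IsOpen 𝒪 ↔
    ∀ K ∈ 𝒪, ∃ U : Set X, IsOpen U ∧ K.1 ⊆ U ∧ ∀ K' : KS X, K'.1 ⊆ U → K' ∈ 𝒪 := by
  constructor
  · intro h
    change TopologicalSpace.GenerateOpen _ 𝒪 at h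
    induction h with
    | basic s hs =>
      obtain ⟨U, hU, rfl⟩ := hs
      exact fun K hK => ⟨U, hU, hK, fun K' h => h⟩
    | univ => exact fun K _ => ⟨univ, isOpen_univ, subset_univ _, fun _ _ => trivial⟩
    | inter s t _ _ hs ht =>
      rintro K ⟨h1, h2⟩
      obtain ⟨U, hU, hKU, h3⟩ := hs K h1
      obtain ⟨V, hV, hKV, h4⟩ := ht K h2
      exact ⟨U ∩ V, hU.inter hV, subset_inter hKU hKV, fun K' h =>
        ⟨h3 K' (h.trans inter_subset_left), h4 K' (h.trans inter_subset_right)⟩⟩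
    | sUnion S _ hS =>
      rintro K ⟨s, hs, hK⟩
      obtain ⟨U, hU, hKU, h3⟩ := hS s hs K hK
      exact ⟨U, hU, hKU, fun K' h => ⟨s, hs, h3 K' h⟩⟩
  · intro h
    have : 𝒪 = ⋃₀ {S | (∃ U : Set X, IsOpen U ∧ S = {K : KS X | K.1 ⊆ U}) ∧ S ⊆ 𝒪} := by
      ext K
      constructor
      · intro hK
        obtain ⟨U, hU, hKU, h3⟩ := h K hK
        exact ⟨_, ⟨⟨U, hU, rfl⟩, fun K' h => h3 K' h⟩, hKU⟩
      · rintro ⟨S, ⟨-, hS⟩, hK⟩
        exact hS hK
    rw [this]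
    refine isOpen_sUnion ?_
    rintro S ⟨⟨U, hU, rfl⟩, -⟩
    exact isOpen_boxKS hU

theorem mem_closure_KS {K M : KS X} (h : M.1 ⊆ K.1) : K ∈ closure {M} := by
  rw [mem_closure_iff]
  intro 𝒱 h𝒱 hK
  obtain ⟨U, hU, hKU, hUs⟩ := isOpenKS_iff.mp h𝒱 K hK
  exact ⟨M, hUs M (h.trans hKU), rfl⟩

theorem t0KS : T0Space (KS X) := by
  refine ⟨fun K M h => ?_⟩
  have key : ∀ K M : KS X, Inseparable K M → K.1 ⊆ M.1 := by
    intro K M h x hx
    apply isSat_iff.mp M.2.2.2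
    intro V hV hMV
    have : K ∈ {K : KS X | K.1 ⊆ V} := (h.mem_open_iff (isOpen_boxKS hV)).mpr hMV
    exact this hx
  exact Subtype.ext (Subset.antisymm (key K M h) (key M K h.symm))

/-- The union of a compact family of compact sets is compact. -/
theorem compact_union {𝒦 : Set (KS X)} (h𝒦 : IsCompact 𝒦) :
    IsCompact {x | ∃ K ∈ 𝒦, x ∈ K.1} := by
  classical
  rw [isCompact_iff_finite_subcover]
  intro ι U hU hcov
  obtain ⟨t, ht⟩ := h𝒦.elim_directed_cover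
    (fun t : Finset ι => {K : KS X | K.1 ⊆ ⋃ i ∈ t, U i})
    (fun t => isOpen_boxKS (isOpen_biUnion fun i _ => hU i)) (by
      intro K hK
      obtain ⟨t, ht⟩ := K.2.2.1.elim_finite_subcover U hU (fun x hx => hcov ⟨K, hK, hx⟩)
      exact mem_iUnion.mpr ⟨t, ht⟩) (by
      intro s t
      refine ⟨s ∪ t, ?_, ?_⟩
      · intro K hK
        exact Subset.trans hK (biUnion_subset_biUnion_left fun i hi =>
          Finset.mem_union_left _ hi)
      · intro K hK
        exact Subset.trans hK (biUnion_subset_biUnion_left fun i hi =>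
          Finset.mem_union_right _ hi))
  refine ⟨t, ?_⟩
  rintro x ⟨K, hK, hx⟩
  exact ht hK hx

end Smyth

/-- The class of well-filtered spaces is a Smyth category. -/
theorem topW_smyth : IsSmyth TopW := by
  intro X t hX
  refine ⟨t0KS, ?_⟩
  intro 𝔎 𝒰 h𝔎 hne hfil h𝒰 hsub
  by_contra hcon
  push Not at hcon
  obtain ⟨𝒞, h𝒞U, h𝒞cl, -, h𝒞m, -, h𝒞D⟩ :=
    rudin (fun K hK => (h𝔎 K hK).2.1) hne hfil h𝒰 hcon
  let L : Set (KS X) → Set X := fun 𝒦 => {x | ∃ K ∈ 𝒦 ∩ 𝒞, x ∈ K.1}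
  have hLprop : ∀ 𝒦 ∈ 𝔎, (L 𝒦).Nonempty ∧ IsCompact (L 𝒦) ∧ IsSat (L 𝒦) := by
    intro 𝒦 h𝒦
    refine ⟨?_, compact_union ((h𝔎 𝒦 h𝒦).2.1.inter_right h𝒞cl), ?_⟩
    · obtain ⟨K, hK1, hK2⟩ := h𝒞m 𝒦 h𝒦
      obtain ⟨x, hx⟩ := K.2.1
      exact ⟨x, K, ⟨hK2, hK1⟩, hx⟩
    · rintro x ⟨K, hK, hx⟩ y hxy
      exact ⟨K, hK, K.2.2.2 x hx y hxy⟩
  have hLfil : ∀ K₁ ∈ L '' 𝔎, ∀ K₂ ∈ L '' 𝔎, ∃ K₃ ∈ L '' 𝔎, K₃ ⊆ K₁ ∩ K₂ := by
    rintro _ ⟨𝒦1, h1, rfl⟩ _ ⟨𝒦2, h2, rfl⟩
    obtain ⟨𝒦3, h3, h3s⟩ := hfil 𝒦1 h1 𝒦2 h2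
    refine ⟨_, ⟨𝒦3, h3, rfl⟩, ?_⟩
    rintro x ⟨K, hK, hx⟩
    exact ⟨⟨K, ⟨(h3s hK.1).1, hK.2⟩, hx⟩, ⟨K, ⟨(h3s hK.1).2, hK.2⟩, hx⟩⟩
  let M : Set X := ⋂₀ (L '' 𝔎)
  have hMU : ∀ V : Set X, IsOpen V → M ⊆ V → ∃ 𝒦 ∈ 𝔎, L 𝒦 ⊆ V := by
    intro V hV hMV
    obtain ⟨_, ⟨𝒦, h𝒦, rfl⟩, h⟩ := hX.2 (L '' 𝔎) V (by
      rintro _ ⟨𝒦, h𝒦, rfl⟩
      exact hLprop 𝒦 h𝒦) (hne.image _) hLfil hV hMV
    exact ⟨𝒦, h𝒦, h⟩
  have hMne : M.Nonempty := by
    by_contra hemp
    rw [not_nonempty_iff_eq_empty] at hemp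
    obtain ⟨𝒦, h𝒦, h⟩ := hMU ∅ isOpen_empty (by rw [hemp])
    obtain ⟨x, hx⟩ := (hLprop 𝒦 h𝒦).1
    exact h hx
  have hMc : IsCompact M := by
    rw [isCompact_iff_finite_subcover]
    intro ι U hU hcov
    obtain ⟨𝒦, h𝒦, h⟩ := hMU _ (isOpen_iUnion hU) hcov
    obtain ⟨t, ht⟩ := (hLprop 𝒦 h𝒦).2.1.elim_finite_subcover U hU h
    exact ⟨t, Subset.trans (sInter_subset_of_mem ⟨𝒦, h𝒦, rfl⟩) ht⟩
  have hMs : IsSat M := by
    rintro x hx y hxy _ ⟨𝒦, h𝒦, rfl⟩
    exact (hLprop 𝒦 h𝒦).2.2 x (hx _ ⟨𝒦, h𝒦, rfl⟩) y hxy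
  have hMK : ∀ K ∈ 𝒞, M ⊆ K.1 := by
    intro K hK x hx
    have hDcl : IsClosed {K : KS X | x ∈ K.1} := by
      rw [← isOpen_compl_iff]
      have : {K : KS X | x ∈ K.1}ᶜ = {K : KS X | K.1 ⊆ (closure {x})ᶜ} := by
        ext K
        constructor
        · intro hK z hz hzx
          exact hK (K.2.2.2 z hz x hzx)
        · intro hK hxK
          exact hK hxK (subset_closure rfl)
      rw [this]
      exact isOpen_boxKS isClosed_closure.isOpen_compl
    refine h𝒞D _ hDcl ?_ hK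
    intro 𝒦 h𝒦
    obtain ⟨K', hK', hxK'⟩ := hx _ ⟨𝒦, h𝒦, rfl⟩
    exact ⟨K', ⟨hK'.2, hxK'⟩, hK'.1⟩
  let M' : KS X := ⟨M, hMne, hMc, hMs⟩
  have hM' : M' ∈ ⋂₀ 𝔎 := by
    intro 𝒦 h𝒦
    obtain ⟨K, hK1, hK2⟩ := h𝒞m 𝒦 h𝒦
    exact (h𝔎 𝒦 h𝒦).2.2 K hK2 M' (mem_closure_KS (hMK K hK1))
  obtain ⟨U, hU, hMU', hUs⟩ := isOpenKS_iff.mp h𝒰 M' (hsub hM')
  obtain ⟨𝒦, h𝒦, hLU⟩ := hMU U hU hMU'
  obtain ⟨K, hK1, hK2⟩ := h𝒞m 𝒦 h𝒦
  exact h𝒞U hK1 (hUs K fun x hx => hLU ⟨K, ⟨hK2, hK1⟩, hx⟩)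

section Adequate

variable {X : Type} [TopologicalSpace X]

theorem isOpen_diamond (G : Set (Set X)) {U : Set X} (hU : IsOpen U) :
    IsOpen {A : PH G | (A.1 ∩ U).Nonempty} :=
  TopologicalSpace.isOpen_generateFrom_of_mem ⟨U, hU, rfl⟩

theorem isOpenPH_iff {G : Set (Set X)} (hG : ∀ A ∈ G, IsIrreducible A) {𝒪 : Set (PH G)} :
    IsOpen 𝒪 ↔ ∃ U : Set X, IsOpen U ∧ 𝒪 = {A : PH G | (A.1 ∩ U).Nonempty} := by
  constructor
  · intro h
    change TopologicalSpace.GenerateOpen _ 𝒪 at h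
    induction h with
    | basic s hs => exact hs
    | univ =>
      refine ⟨univ, isOpen_univ, ?_⟩
      ext A
      simp only [mem_univ, inter_univ, true_iff]
      exact (hG A.1 A.2).1
    | inter s t _ _ hs ht =>
      obtain ⟨U, hU, rfl⟩ := hs
      obtain ⟨V, hV, rfl⟩ := ht
      refine ⟨U ∩ V, hU.inter hV, ?_⟩
      ext A
      constructor
      · rintro ⟨h1, h2⟩
        exact (hG A.1 A.2).2 U V hU hV h1 h2
      · rintro ⟨x, hx, hxU, hxV⟩
        exact ⟨⟨x, hx, hxU⟩, ⟨x, hx, hxV⟩⟩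
    | sUnion S _ hS =>
      choose! U hU hUs using hS
      refine ⟨⋃ s ∈ S, U s, isOpen_biUnion fun s hs => hU s hs, ?_⟩
      ext A
      constructor
      · rintro ⟨s, hs, hA⟩
        rw [hUs s hs] at hA
        obtain ⟨x, hx, hxU⟩ := hA
        exact ⟨x, hx, mem_biUnion hs hxU⟩
      · rintro ⟨x, hx, hxU⟩
        obtain ⟨s, hs, hxs⟩ := mem_iUnion₂.mp hxU
        refine ⟨s, hs, ?_⟩
        rw [hUs s hs]
        exact ⟨x, hx, hxs⟩
  · rintro ⟨U, hU, rfl⟩
    exact isOpen_diamond G hU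

theorem detSet_closure_point (x : X) : IsDetSet TopW (closure {x}) := by
  intro Y s f hY hf
  apply unique_point hY.1 (y := f x)
  apply Subset.antisymm
  · refine closure_minimal ?_ isClosed_closure
    rintro _ ⟨z, hz, rfl⟩
    rw [mem_closure_iff] at hz ⊢
    intro V hV hzV
    obtain ⟨w, hw, hwx⟩ := hz (f ⁻¹' V) (hV.preimage hf) hzV
    rw [mem_singleton_iff] at hwx
    subst hwx
    exact ⟨f w, hw, rfl⟩
  · refine closure_minimal ?_ isClosed_closure
    rintro _ rfl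
    exact subset_closure ⟨x, subset_closure rfl, rfl⟩

end Adequate

/-- The class of well-filtered spaces is adequate. -/
theorem topW_adequate : IsAdequate TopW := by
  intro X t _
  have hirr : ∀ A ∈ DetClosed TopW X, IsIrreducible A := fun A hA => detSet_irr hA.2
  refine ⟨?_, ?_⟩
  · refine ⟨fun A B h => ?_⟩
    have key : ∀ A B : PH (DetClosed TopW X), Inseparable A B → A.1 ⊆ B.1 := by
      intro A B h x hx
      by_contra hxB
      have hop : IsOpen B.1ᶜ := B.2.1.isOpen_compl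
      have : B ∈ {A : PH (DetClosed TopW X) | (A.1 ∩ B.1ᶜ).Nonempty} :=
        (h.mem_open_iff (isOpen_diamond _ hop)).mp ⟨x, hx, hxB⟩
      obtain ⟨z, hz1, hz2⟩ := this
      exact hz2 hz1
    exact Subtype.ext (Subset.antisymm (key A B h) (key B A h.symm))
  intro 𝔎 𝒰 h𝔎 hne hfil h𝒰 hsub
  by_contra hcon
  push Not at hcon
  obtain ⟨𝒞, h𝒞U, h𝒞cl, -, h𝒞m, -, h𝒞D⟩ :=
    rudin (fun K hK => (h𝔎 K hK).2.1) hne hfil h𝒰 hcon
  obtain ⟨W, hW, hWs⟩ := (isOpenPH_iff hirr).mp h𝒞cl.isOpen_compl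
  have h𝒞 : ∀ A : PH (DetClosed TopW X), A ∈ 𝒞 ↔ A.1 ⊆ Wᶜ := by
    intro A
    have h1 : A ∈ 𝒞ᶜ ↔ (A.1 ∩ W).Nonempty := by rw [hWs]; rfl
    constructor
    · intro hA x hx hxW
      exact h1.mpr ⟨x, hx, hxW⟩ hA
    · intro hA
      by_contra hA2
      obtain ⟨x, hx, hxW⟩ := h1.mp hA2
      exact hA hx hxW
  let C : Set X := Wᶜ
  have hCcl : IsClosed C := hW.isClosed_compl
  have hCdet : IsDetSet TopW C := by
    intro Y s f hY hf
    have hgex : ∀ A : PH (DetClosed TopW X), ∃ y : Y, closure (f '' A.1) = closure {y} := by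
      intro A
      obtain ⟨y, hy, -⟩ := A.2.2 Y s f hY hf
      exact ⟨y, hy⟩
    choose g hg using hgex
    have hgc : Continuous g := by
      refine ⟨fun V hV => ?_⟩
      have : g ⁻¹' V = {A : PH (DetClosed TopW X) | (A.1 ∩ f ⁻¹' V).Nonempty} := by
        ext A
        have h1 : g A ∈ V ↔ (closure {g A} ∩ V).Nonempty := by
          rw [closure_inter_open_nonempty_iff hV]
          simp
        have h2 : (closure (f '' A.1) ∩ V).Nonempty ↔ (A.1 ∩ f ⁻¹' V).Nonempty := by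
          rw [closure_inter_open_nonempty_iff hV]
          constructor
          · rintro ⟨_, ⟨x, hx, rfl⟩, hxV⟩
            exact ⟨x, hx, hxV⟩
          · rintro ⟨x, hx, hxV⟩
            exact ⟨f x, ⟨x, hx, rfl⟩, hxV⟩
        rw [← hg A] at h1
        exact h1.trans h2
      rw [this]
      exact isOpen_diamond _ (hV.preimage hf)
    have hnot : ¬ ⋂₀ ((fun K => sat (g '' (𝒞 ∩ K))) '' 𝔎) ⊆ (closure (f '' C))ᶜ := by
      intro hsub2
      obtain ⟨_, ⟨K, hK, rfl⟩, h⟩ := hY.2 ((fun K => sat (g '' (𝒞 ∩ K))) '' 𝔎)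
        (closure (f '' C))ᶜ (by
          rintro _ ⟨K, hK, rfl⟩
          exact ⟨((h𝒞m K hK).image g).mono (subset_sat _),
            sat_compact (((h𝔎 K hK).2.1.inter_left h𝒞cl).image hgc), isSat_sat _⟩)
        (hne.image _) (by
          rintro _ ⟨K1, h1, rfl⟩ _ ⟨K2, h2, rfl⟩
          obtain ⟨K3, h3, h3s⟩ := hfil K1 h1 K2 h2
          refine ⟨_, ⟨K3, h3, rfl⟩, subset_inter ?_ ?_⟩
          · exact sat_mono (image_mono (inter_subset_inter_right _
              (h3s.trans inter_subset_left)))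
          · exact sat_mono (image_mono (inter_subset_inter_right _
              (h3s.trans inter_subset_right)))) isClosed_closure.isOpen_compl hsub2
      obtain ⟨A, hA1, hA2⟩ := h𝒞m K hK
      have h1 : g A ∈ sat (g '' (𝒞 ∩ K)) := subset_sat _ ⟨A, ⟨hA1, hA2⟩, rfl⟩
      apply h h1
      have h2 : g A ∈ closure (f '' A.1) := by rw [hg A]; exact subset_closure rfl
      exact closure_mono (image_mono ((h𝒞 A).mp hA1)) h2
    rw [not_subset] at hnot
    obtain ⟨y, hy1, hy2⟩ := hnot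
    rw [mem_compl_iff, not_not] at hy2
    apply unique_point hY.1 (y := y)
    refine Subset.antisymm ?_ (closure_minimal (singleton_subset_iff.mpr hy2) isClosed_closure)
    have hD : 𝒞 ⊆ g ⁻¹' closure {y} := by
      apply h𝒞D _ (isClosed_closure.preimage hgc)
      intro K hK
      by_contra hemp
      have hyK : y ∈ sat (g '' (𝒞 ∩ K)) := hy1 _ ⟨K, hK, rfl⟩
      refine hyK (closure {y})ᶜ isClosed_closure.isOpen_compl ?_ (subset_closure rfl)
      rintro _ ⟨A, hA, rfl⟩ hgA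
      exact hemp ⟨A, ⟨hA.1, hgA⟩, hA.2⟩
    refine closure_minimal ?_ isClosed_closure
    rintro _ ⟨x, hx, rfl⟩
    have hxC : closure {x} ⊆ C := closure_minimal (singleton_subset_iff.mpr hx) hCcl
    let P : PH (DetClosed TopW X) := ⟨closure {x}, isClosed_closure, detSet_closure_point x⟩
    have hP : g P ∈ closure {y} := hD ((h𝒞 P).mpr hxC)
    have hP2 : closure {g P} ⊆ closure {y} :=
      closure_minimal (singleton_subset_iff.mpr hP) isClosed_closure
    apply hP2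
    rw [← hg P]
    exact subset_closure ⟨x, subset_closure rfl, rfl⟩
  let C' : PH (DetClosed TopW X) := ⟨C, hCcl, hCdet⟩
  have hC'C : C' ∈ 𝒞 := (h𝒞 C').mpr Subset.rfl
  apply h𝒞U hC'C
  apply hsub
  intro K hK
  obtain ⟨A, hA1, hA2⟩ := h𝒞m K hK
  apply (h𝔎 K hK).2.2 A hA2 C'
  rw [mem_closure_iff]
  intro 𝒱 h𝒱 hA
  obtain ⟨V, hV, rfl⟩ := (isOpenPH_iff hirr).mp h𝒱
  obtain ⟨x, hx, hxV⟩ := hA
  exact ⟨C', ⟨x, (h𝒞 A).mp hA1 hx, hxV⟩, rfl⟩


/-- The Cantor space. -/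
abbrev CT : Type := ℕ → Bool

/-- The point set `T × ℕ`. -/
@[ext] structure XX : Type where
  t : CT
  n : ℕ

/-- Column of a set. -/
def col (U : Set XX) (n : ℕ) : Set CT := {t | (⟨t, n⟩ : XX) ∈ U}

/-- The shadow of a set. -/
def shadow (U : Set XX) : Set CT := {t | ∃ n, (⟨t, n⟩ : XX) ∈ U}

/-- Open sets: columns open, rows empty or cofinite. -/
def OpenX (U : Set XX) : Prop :=
  (∀ n, IsOpen (col U n)) ∧ ∀ t ∈ shadow U, {n | (⟨t, n⟩ : XX) ∉ U}.Finite

instance topX : TopologicalSpace XX where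
  IsOpen := OpenX
  isOpen_univ := ⟨fun n => by simpa [col] using isOpen_univ, fun t _ => by simp⟩
  isOpen_inter U V hU hV := by
    refine ⟨fun n => (hU.1 n).inter (hV.1 n), ?_⟩
    rintro t ⟨n, hn⟩
    refine ((hU.2 t ⟨n, hn.1⟩).union (hV.2 t ⟨n, hn.2⟩)).subset ?_
    intro m hm
    by_contra hcon
    rw [mem_union, not_or] at hcon
    exact hm ⟨not_not.mp hcon.1, not_not.mp hcon.2⟩
  isOpen_sUnion S hS := by
    refine ⟨fun n => ?_, ?_⟩
    · have : col (⋃₀ S) n = ⋃ U ∈ S, col U n := by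
        ext t; simp [col]
      rw [this]
      exact isOpen_biUnion fun U hU => (hS U hU).1 n
    · rintro t ⟨n, U, hU, hn⟩
      refine ((hS U hU).2 t ⟨n, hn⟩).subset ?_
      intro m hm hmU
      exact hm ⟨U, hU, hmU⟩

theorem isOpen_iff {U : Set XX} : IsOpen U ↔ OpenX U := Iff.rfl

theorem isOpen_shadow {U : Set XX} (hU : IsOpen U) : IsOpen (shadow U) := by
  have : shadow U = ⋃ n, col U n := by
    ext t; simp [shadow, col]
  rw [this]
  exact isOpen_iUnion fun n => hU.1 n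

theorem shadow_mono {U V : Set XX} (h : U ⊆ V) : shadow U ⊆ shadow V :=
  fun _ ⟨n, hn⟩ => ⟨n, h hn⟩

theorem shadow_inter {U V : Set XX} (hU : IsOpen U) (hV : IsOpen V) :
    shadow (U ∩ V) = shadow U ∩ shadow V := by
  apply Subset.antisymm
  · exact subset_inter (shadow_mono inter_subset_left) (shadow_mono inter_subset_right)
  · rintro t ⟨h1, h2⟩
    have hf := (hU.2 t h1).union (hV.2 t h2)
    obtain ⟨n, hn⟩ := hf.infinite_compl.nonempty
    rw [mem_compl_iff, mem_union, not_or] at hn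
    exact ⟨n, not_not.mp hn.1, not_not.mp hn.2⟩

theorem shadow_univ : shadow (univ : Set XX) = univ := by
  ext t; simp [shadow]

theorem shadow_empty : shadow (∅ : Set XX) = ∅ := by
  ext t; simp [shadow]

/-- Removing a set with closed columns and finite rows. -/
theorem isOpen_compl_of {E : Set XX} (h1 : ∀ n, IsClosed (col E n))
    (h2 : ∀ t, {n | (⟨t, n⟩ : XX) ∈ E}.Finite) : IsOpen Eᶜ := by
  refine ⟨fun n => ?_, fun t _ => ?_⟩
  · exact (h1 n).isOpen_compl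
  · simpa using h2 t

theorem shadow_compl_of {E : Set XX} (h2 : ∀ t, {n | (⟨t, n⟩ : XX) ∈ E}.Finite) :
    shadow Eᶜ = univ := by
  rw [eq_univ_iff_forall]
  intro t
  obtain ⟨n, hn⟩ := (h2 t).infinite_compl.nonempty
  exact ⟨n, hn⟩

/-- Cylinders over open sets of the Cantor space. -/
def cyl (C : Set CT) : Set XX := {x | x.t ∈ C}

theorem isOpen_cyl {C : Set CT} (hC : IsOpen C) : IsOpen (cyl C) := by
  refine ⟨fun n => hC, ?_⟩
  rintro t ⟨n, hn⟩
  have : {m | (⟨t, m⟩ : XX) ∉ cyl C} = ∅ := by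
    rw [eq_empty_iff_forall_notMem]
    intro m hm
    exact hm hn
  rw [this]
  exact finite_empty

theorem shadow_cyl (C : Set CT) : shadow (cyl C) = C := by
  ext t
  constructor
  · rintro ⟨n, hn⟩; exact hn
  · intro h; exact ⟨0, h⟩

theorem isClosed_of_finite {E : Set XX} (h : E.Finite) : IsClosed E := by
  rw [← isOpen_compl_iff]
  apply isOpen_compl_of
  · intro n
    have : (col E n).Finite := by
      refine (h.image XX.t).subset ?_
      intro t ht
      exact ⟨⟨t, n⟩, ht, rfl⟩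
    exact this.isClosed
  · intro t
    refine (h.image XX.n).subset ?_
    intro n hn
    exact ⟨⟨t, n⟩, hn, rfl⟩

theorem t0X : T0Space XX := by
  refine ⟨fun x y hxy => ?_⟩
  by_contra hne
  have h1 : IsOpen ({y}ᶜ : Set XX) := (isClosed_of_finite (finite_singleton y)).isOpen_compl
  have := (hxy.mem_open_iff h1).mp hne
  exact this rfl

/-- Irreducible sets lie in a single row. -/
theorem irr_row {A : Set XX} (hA : IsPreirreducible A) {x y : XX} (hx : x ∈ A) (hy : y ∈ A) :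
    x.t = y.t := by
  by_contra hne
  obtain ⟨k, hk⟩ := Function.ne_iff.mp hne
  have hc : IsClopen {s : CT | s k = x.t k} :=
    (isClopen_discrete {x.t k}).preimage (continuous_apply k)
  obtain ⟨z, -, hz1, hz2⟩ := hA _ _ (isOpen_cyl hc.isOpen) (isOpen_cyl hc.compl.isOpen)
    ⟨x, hx, rfl⟩ ⟨y, hy, fun h => hk h.symm⟩
  exact hz2 hz1

/-- Tails of rows are compact. -/
theorem tail_compact (t : CT) (m : ℕ) : IsCompact {x : XX | x.t = t ∧ m ≤ x.n} := by
  rw [isCompact_iff_finite_subcover]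
  intro ι U hU hcov
  have hm : (⟨t, m⟩ : XX) ∈ ⋃ i, U i := hcov ⟨rfl, le_rfl⟩
  obtain ⟨i, hi⟩ := mem_iUnion.mp hm
  have hfin := (hU i).2 t ⟨m, hi⟩
  have hpick : ∀ n : ℕ, ∃ j, m ≤ n → (⟨t, n⟩ : XX) ∈ U j := by
    intro n
    by_cases hn : m ≤ n
    · obtain ⟨j, hj⟩ := mem_iUnion.mp (hcov (show (⟨t, n⟩ : XX) ∈ {x : XX | x.t = t ∧ m ≤ x.n} from ⟨rfl, hn⟩))
      exact ⟨j, fun _ => hj⟩
    · exact ⟨i, fun h => absurd h hn⟩
  choose j hj using hpick
  classical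
  refine ⟨insert i (hfin.toFinset.image j), ?_⟩
  rintro ⟨s, n⟩ ⟨rfl, hn⟩
  simp only at hn
  rw [mem_iUnion₂]
  by_cases hin : (⟨s, n⟩ : XX) ∈ U i
  · exact ⟨i, Finset.mem_insert_self _ _, hin⟩
  · refine ⟨j n, Finset.mem_insert_of_mem (Finset.mem_image_of_mem _ ?_), hj n hn⟩
    rw [Finite.mem_toFinset]
    exact hin

/-- Good pairs. -/
structure Good (p : Set CT × Set XX) : Prop where
  ne : p.1.Nonempty
  cl : IsClosed p.1
  sub : ∀ x ∈ p.2, x.t ∈ p.1
  colcl : ∀ n, IsClosed (col p.2 n)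
  bd : ∃ (n0 : ℕ) (F : Finset CT), ∀ x ∈ p.2, x.n ≤ n0 ∨ x.t ∈ F

/-- Smallness of the missing part. -/
def Small (p : Set CT × Set XX) : Prop :=
  ∀ B : Set CT, IsClosed B → B ⊆ p.1 → (∀ x ∈ p.2, x.t ∉ B) → B.Countable

/-- Membership in a basic open set. -/
def inBox (U : Set XX) (p : Set CT × Set XX) : Prop := p.2 ⊆ U ∧ p.1 ⊆ shadow U

/-- The auxiliary well-filtered space. -/
def YY : Type := {p : Set CT × Set XX // Good p ∧ Small p}

/-- Basic open sets. -/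
def box (U : Set XX) : Set YY := {p | inBox U p.1}

theorem mem_box {U : Set XX} {p : YY} : p ∈ box U ↔ inBox U p.1 := Iff.rfl

theorem box_inter {U V : Set XX} (hU : IsOpen U) (hV : IsOpen V) :
    box (U ∩ V) = box U ∩ box V := by
  ext p
  rw [mem_inter_iff, mem_box, mem_box, mem_box, inBox, inBox, inBox, shadow_inter hU hV,
    subset_inter_iff, subset_inter_iff]
  tauto

theorem box_univ : box (univ : Set XX) = univ := by
  ext p
  rw [mem_box, inBox, shadow_univ]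
  simp

instance topY : TopologicalSpace YY where
  IsOpen 𝒰 := ∀ p ∈ 𝒰, ∃ U, IsOpen U ∧ p ∈ box U ∧ box U ⊆ 𝒰
  isOpen_univ := fun p _ => ⟨univ, isOpen_univ, by rw [box_univ]; trivial, subset_univ _⟩
  isOpen_inter 𝒰 𝒱 h1 h2 := by
    rintro p ⟨hp1, hp2⟩
    obtain ⟨U, hU, hpU, hUs⟩ := h1 p hp1
    obtain ⟨V, hV, hpV, hVs⟩ := h2 p hp2
    refine ⟨U ∩ V, hU.inter hV, ?_, ?_⟩
    · rw [box_inter hU hV]; exact ⟨hpU, hpV⟩
    · rw [box_inter hU hV]; exact inter_subset_inter hUs hVs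
  isOpen_sUnion S hS := by
    rintro p ⟨𝒰, h𝒰, hp⟩
    obtain ⟨U, hU, hpU, hUs⟩ := hS 𝒰 h𝒰 p hp
    exact ⟨U, hU, hpU, hUs.trans (subset_sUnion_of_mem h𝒰)⟩

theorem isOpenY_iff {𝒰 : Set YY} :
    IsOpen 𝒰 ↔ ∀ p ∈ 𝒰, ∃ U, IsOpen U ∧ p ∈ box U ∧ box U ⊆ 𝒰 := Iff.rfl

theorem isOpen_box {U : Set XX} (hU : IsOpen U) : IsOpen (box U) :=
  fun _ hp => ⟨U, hU, hp, Subset.rfl⟩

theorem col_compl_row (t : CT) (n : ℕ) : col (cyl {t}ᶜ) n = {t}ᶜ := rfl

theorem isOpen_corow (t : CT) : IsOpen (cyl {t}ᶜ) := isOpen_cyl isOpen_compl_singleton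

theorem t0Y : T0Space YY := by
  refine ⟨fun p q hpq => ?_⟩
  have key : ∀ p q : YY, Inseparable p q → q.1.1 ⊆ p.1.1 ∧ q.1.2 ⊆ p.1.2 := by
    intro p q hpq
    constructor
    · intro t ht
      by_contra hcon
      have hp : p ∈ box (cyl {t}ᶜ) := by
        refine ⟨?_, ?_⟩
        · intro x hx
          intro hxt
          exact hcon (hxt ▸ p.2.1.sub x hx)
        · rw [shadow_cyl]
          intro s hs hst
          exact hcon (hst ▸ hs)
      have hq := (hpq.mem_open_iff (isOpen_box (isOpen_corow t))).mp hp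
      have := hq.2 ht
      rw [shadow_cyl] at this
      exact this rfl
    · intro x hx
      by_contra hcon
      have hop : IsOpen ({x}ᶜ : Set XX) := (isClosed_of_finite (finite_singleton x)).isOpen_compl
      have hsh : shadow ({x}ᶜ : Set XX) = univ := by
        apply shadow_compl_of
        intro t
        refine ((finite_singleton x).image XX.n).subset ?_
        intro n hn
        exact ⟨⟨t, n⟩, hn, rfl⟩
      have hp : p ∈ box ({x}ᶜ : Set XX) := by
        refine ⟨?_, ?_⟩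
        · intro y hy hyx
          exact hcon (hyx ▸ hy)
        · rw [hsh]; exact subset_univ _
      have hq := (hpq.mem_open_iff (isOpen_box hop)).mp hp
      exact hq.1 hx rfl
  obtain ⟨h1, h2⟩ := key p q hpq
  obtain ⟨h3, h4⟩ := key q p hpq.symm
  exact Subtype.ext (Prod.ext (Subset.antisymm h3 h1) (Subset.antisymm h4 h2))

/-- The compactness lemma. -/
theorem cpt {p : Set CT × Set XX} (hp : Good p) {𝒱 : Set (Set XX)} (hne : 𝒱.Nonempty)
    (hop : ∀ V ∈ 𝒱, IsOpen V) (hdir : ∀ V ∈ 𝒱, ∀ W ∈ 𝒱, ∃ R ∈ 𝒱, V ⊆ R ∧ W ⊆ R)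
    (h1 : p.2 ⊆ ⋃₀ 𝒱) (h2 : p.1 ⊆ shadow (⋃₀ 𝒱)) : ∃ V ∈ 𝒱, inBox V p := by
  classical
  obtain ⟨n0, F, hF⟩ := hp.bd
  -- finite subsets of the union lie in a member
  have hfin : ∀ E : Set XX, E.Finite → ∀ V ∈ 𝒱, E ⊆ ⋃₀ 𝒱 → ∃ W ∈ 𝒱, V ⊆ W ∧ E ⊆ W := by
    intro E hE
    induction E, hE using Set.Finite.induction_on with
    | empty => intro V hV _; exact ⟨V, hV, Subset.rfl, empty_subset _⟩
    | @insert a E ha hE ih =>
      intro V hV hsub
      obtain ⟨W, hW, hVW, hEW⟩ := ih V hV ((subset_insert _ _).trans hsub)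
      obtain ⟨R, hR, haR⟩ := hsub (mem_insert a E)
      obtain ⟨Q, hQ, hWQ, hRQ⟩ := hdir W hW R hR
      refine ⟨Q, hQ, hVW.trans hWQ, ?_⟩
      intro x hx
      rcases hx with rfl | hx
      · exact hRQ haR
      · exact hWQ (hEW hx)
  let W : 𝒱 → Set CT := fun V => {t | t ∈ shadow V.1 ∧ ∀ n ≤ n0, t ∈ (col p.2 n)ᶜ ∪ col V.1 n}
  have hWo : ∀ V, IsOpen (W V) := by
    intro V
    have : W V = shadow V.1 ∩ ⋂ n ∈ Iic n0, ((col p.2 n)ᶜ ∪ col V.1 n) := by
      ext t; simp [W]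
    rw [this]
    refine (isOpen_shadow (hop V.1 V.2)).inter ?_
    exact (finite_Iic n0).isOpen_biInter fun n _ => (hp.colcl n).isOpen_compl.union ((hop V.1 V.2).1 n)
  have hWmono : ∀ V V' : 𝒱, V.1 ⊆ V'.1 → W V ⊆ W V' := by
    intro V V' h t ht
    refine ⟨shadow_mono h ht.1, fun n hn => ?_⟩
    rcases ht.2 n hn with h3 | h3
    · exact Or.inl h3
    · exact Or.inr (h h3)
  have hcov : p.1 ⊆ ⋃ V, W V := by
    intro t ht
    obtain ⟨m, V, hV, hm⟩ := h2 ht
    obtain ⟨R, hR, hVR, hER⟩ := hfin {x | x ∈ p.2 ∧ x.t = t ∧ x.n ≤ n0}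
      (by
        refine ((finite_Iic n0).image (fun n => (⟨t, n⟩ : XX))).subset ?_
        rintro ⟨s, n⟩ ⟨_, rfl, hn⟩
        exact ⟨n, hn, rfl⟩) V hV (fun x hx => h1 hx.1)
    rw [mem_iUnion]
    refine ⟨⟨R, hR⟩, ⟨m, hVR hm⟩, fun n hn => ?_⟩
    by_cases hc : (⟨t, n⟩ : XX) ∈ p.2
    · exact Or.inr (hER ⟨hc, rfl, hn⟩)
    · exact Or.inl hc
  have : Nonempty 𝒱 := hne.to_subtype
  obtain ⟨V, hV⟩ := hp.cl.isCompact.elim_directed_cover W hWo hcov (by
    intro V V'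
    obtain ⟨R, hR, h3, h4⟩ := hdir V.1 V.2 V'.1 V'.2
    exact ⟨⟨R, hR⟩, hWmono _ _ h3, hWmono _ _ h4⟩)
  obtain ⟨R, hR, hVR, hER⟩ := hfin {x | x ∈ p.2 ∧ x ∉ V.1}
    (by
      have : {x | x ∈ p.2 ∧ x ∉ V.1} ⊆ ⋃ t ∈ (F.filter (fun t => t ∈ p.1) : Finset CT),
          (fun n => (⟨t, n⟩ : XX)) '' {n | (⟨t, n⟩ : XX) ∉ V.1} := by
        rintro ⟨s, n⟩ ⟨hx1, hx2⟩
        rw [mem_iUnion₂]
        have hs : s ∈ p.1 := hp.sub _ hx1
        refine ⟨s, ?_, n, hx2, rfl⟩
        rw [Finset.mem_filter]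
        refine ⟨?_, hs⟩
        rcases hF _ hx1 with h5 | h5
        · exfalso
          rcases (hV hs).2 n h5 with h6 | h6
          · exact h6 hx1
          · exact hx2 h6
        · exact h5
      refine (Set.Finite.biUnion (Finset.finite_toSet _) ?_).subset this
      intro t ht
      rw [Finset.mem_coe, Finset.mem_filter] at ht
      exact ((hop V.1 V.2).2 t (hV ht.2).1).image _) V.1 V.2 (fun x hx => h1 hx.1)
  refine ⟨R, hR, ?_, ?_⟩
  · intro x hx
    by_cases hc : x ∈ V.1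
    · exact hVR hc
    · exact hER ⟨hx, hc⟩
  · intro t ht
    exact shadow_mono hVR (hV ht).1

theorem exists_spread {S : Set XX}
    (h : ∀ (n0 : ℕ) (F : Finset CT), ∃ x ∈ S, n0 < x.n ∧ x.t ∉ F) :
    ∃ x : ℕ → XX, (∀ i, x i ∈ S) ∧ ∀ i j, i < j → (x i).n < (x j).n ∧ (x i).t ≠ (x j).t := by
  classical
  refine exists_seq_of_forall_finset_exists (· ∈ S) (fun x y => x.n < y.n ∧ x.t ≠ y.t) ?_
  intro s hs
  obtain ⟨x, hx, h1, h2⟩ := h (s.sup XX.n) (s.image XX.t)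
  refine ⟨x, hx, fun y hy => ⟨(Finset.le_sup (f := XX.n) hy).trans_lt h1, ?_⟩⟩
  rintro h3
  exact h2 (h3 ▸ Finset.mem_image_of_mem _ hy)

/-- Tails of a sequence. -/
def tl (x : ℕ → XX) (j : ℕ) : Set XX := {y | ∃ i, j ≤ i ∧ x i = y}

theorem tl_aux {x : ℕ → XX} (hx : ∀ i j, i < j → (x i).n < (x j).n ∧ (x i).t ≠ (x j).t)
    (j : ℕ) : (∀ n, (col (tl x j) n).Subsingleton) ∧
      ∀ t, {n | (⟨t, n⟩ : XX) ∈ tl x j}.Subsingleton := by
  constructor
  · rintro n s ⟨i, -, hi⟩ t ⟨i', -, hi'⟩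
    rcases lt_trichotomy i i' with h | h | h
    · have := (hx _ _ h).1
      rw [hi, hi'] at this
      exact absurd this (lt_irrefl _)
    · subst h
      rw [hi] at hi'
      exact congrArg XX.t hi'
    · have := (hx _ _ h).1
      rw [hi, hi'] at this
      exact absurd this (lt_irrefl _)
  · rintro t n ⟨i, -, hi⟩ m ⟨i', -, hi'⟩
    rcases lt_trichotomy i i' with h | h | h
    · have := (hx _ _ h).2
      rw [hi, hi'] at this
      exact absurd rfl this
    · subst h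
      rw [hi] at hi'
      exact congrArg XX.n hi'
    · have := (hx _ _ h).2
      rw [hi, hi'] at this
      exact absurd rfl this

theorem tl_open {x : ℕ → XX} (hx : ∀ i j, i < j → (x i).n < (x j).n ∧ (x i).t ≠ (x j).t)
    (j : ℕ) : IsOpen (tl x j)ᶜ :=
  isOpen_compl_of (fun n => ((tl_aux hx j).1 n).finite.isClosed)
    (fun t => ((tl_aux hx j).2 t).finite)

theorem tl_shadow {x : ℕ → XX} (hx : ∀ i j, i < j → (x i).n < (x j).n ∧ (x i).t ≠ (x j).t)
    (j : ℕ) : shadow (tl x j)ᶜ = univ :=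
  shadow_compl_of (fun t => ((tl_aux hx j).2 t).finite)

theorem tl_escape {x : ℕ → XX} (hx : ∀ i j, i < j → (x i).n < (x j).n ∧ (x i).t ≠ (x j).t)
    {L : Set XX} (hL : ∃ (n0 : ℕ) (F : Finset CT), ∀ x ∈ L, x.n ≤ n0 ∨ x.t ∈ F) :
    ∃ j, L ⊆ (tl x j)ᶜ := by
  obtain ⟨n0, F, hF⟩ := hL
  have hmono : StrictMono (fun i => (x i).n) := fun i j h => (hx i j h).1
  have hinj : Function.Injective (fun i => (x i).t) := by
    intro i j hij
    rcases lt_trichotomy i j with h | h | h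
    · exact absurd hij (hx _ _ h).2
    · exact h
    · exact absurd hij.symm (hx _ _ h).2
  have hfin : {i | (x i).t ∈ F}.Finite := F.finite_toSet.preimage hinj.injOn
  obtain ⟨N, hN⟩ := hfin.bddAbove
  refine ⟨max (n0 + 1) (N + 1), ?_⟩
  rintro y hy ⟨i, hi, rfl⟩
  rcases hF _ hy with h | h
  · have : i ≤ (x i).n := hmono.id_le i
    omega
  · have : i ≤ N := hN h
    omega

theorem tl_anti (x : ℕ → XX) {i j : ℕ} (h : i ≤ j) : tl x j ⊆ tl x i := by
  rintro y ⟨k, hk, rfl⟩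
  exact ⟨k, h.trans hk, rfl⟩

theorem bd_compact {K : Set XX} (hK : IsCompact K) :
    ∃ (n0 : ℕ) (F : Finset CT), ∀ x ∈ K, x.n ≤ n0 ∨ x.t ∈ F := by
  by_contra hcon
  push Not at hcon
  obtain ⟨x, hxK, hx⟩ := exists_spread hcon
  obtain ⟨j, hj⟩ := hK.elim_directed_cover (fun j => (tl x j)ᶜ) (tl_open hx) (by
    intro y _
    rw [mem_iUnion]
    obtain ⟨j, hj⟩ := tl_escape hx (L := {y}) ⟨y.n, ∅, fun z hz => Or.inl (by rw [hz])⟩
    exact ⟨j, hj rfl⟩) (by
    intro i j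
    exact ⟨max i j, compl_subset_compl.mpr (tl_anti x (le_max_left _ _)),
      compl_subset_compl.mpr (tl_anti x (le_max_right _ _))⟩)
  exact hj (hxK j) ⟨j, le_rfl, rfl⟩

theorem bd_compactY {K : Set YY} (hK : IsCompact K) :
    ∃ (n0 : ℕ) (F : Finset CT), ∀ p ∈ K, ∀ x ∈ p.1.2, x.n ≤ n0 ∨ x.t ∈ F := by
  by_contra hcon
  push Not at hcon
  obtain ⟨x, hxK, hx⟩ := exists_spread (S := {x | ∃ p ∈ K, x ∈ p.1.2}) (by
    intro n0 F
    obtain ⟨p, hp, x, hx, h1, h2⟩ := hcon n0 F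
    exact ⟨x, ⟨p, hp, hx⟩, h1, h2⟩)
  obtain ⟨j, hj⟩ := hK.elim_directed_cover (fun j => box (tl x j)ᶜ)
    (fun j => isOpen_box (tl_open hx j)) (by
    intro p _
    rw [mem_iUnion]
    obtain ⟨j, hj⟩ := tl_escape hx (L := p.1.2) p.2.1.bd
    exact ⟨j, hj, by rw [tl_shadow hx j]; exact subset_univ _⟩) (by
    intro i j
    refine ⟨max i j, ?_, ?_⟩
    · rintro p ⟨hp, -⟩
      exact ⟨hp.trans (compl_subset_compl.mpr (tl_anti x (le_max_left _ _))),
        by rw [tl_shadow hx]; exact subset_univ _⟩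
    · rintro p ⟨hp, -⟩
      exact ⟨hp.trans (compl_subset_compl.mpr (tl_anti x (le_max_right _ _))),
        by rw [tl_shadow hx]; exact subset_univ _⟩)
  obtain ⟨p, hp, hxp⟩ := hxK j
  exact (hj hp).1 hxp ⟨j, le_rfl, rfl⟩

/-- Classification of irreducible closed sets. -/
theorem irr_class {A : Set XX} (hc : IsClosed A) (hA : IsIrreducible A) :
    (∃ x, A = {x}) ∨ ∃ t, A = cyl {t} := by
  obtain ⟨x, hx⟩ := hA.1
  by_cases hfin : A.Finite
  · left
    refine ⟨x, ?_⟩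
    apply Subset.antisymm
    · intro y hy
      by_contra hne
      have h1 : IsOpen (A \ {x})ᶜ := (isClosed_of_finite (hfin.subset sdiff_subset)).isOpen_compl
      have h2 : IsOpen ({x} : Set XX)ᶜ := (isClosed_of_finite (finite_singleton x)).isOpen_compl
      obtain ⟨z, hz, hz1, hz2⟩ := hA.2 _ _ h1 h2 ⟨x, hx, fun h => h.2 rfl⟩ ⟨y, hy, hne⟩
      exact hz1 ⟨hz, hz2⟩
    · rintro y rfl; exact hx
  · right
    refine ⟨x.t, ?_⟩
    apply Subset.antisymm
    · intro y hy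
      exact irr_row hA.2 hy hx
    · rintro ⟨s, n⟩ hs
      have hs' : s = x.t := hs
      subst hs'
      by_contra hcon
      apply hfin
      have h3 := hc.isOpen_compl.2 x.t ⟨n, hcon⟩
      refine (h3.image (fun n => (⟨x.t, n⟩ : XX))).subset ?_
      rintro ⟨s, m⟩ hm
      have : s = x.t := irr_row hA.2 hm hx
      subst this
      exact ⟨m, fun h => h hm, rfl⟩

theorem wfdX {A : Set XX} (hc : IsClosed A) (hA : IsIrreducible A) : IsDetSet TopW A := by
  intro Y s f hY hf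
  obtain ⟨h0, hWF⟩ := hY
  suffices hs : ∃ y, closure (f '' A) = closure {y} by
    obtain ⟨y, hy⟩ := hs
    exact unique_point h0 hy
  rcases irr_class hc hA with ⟨x, rfl⟩ | ⟨t, rfl⟩
  · exact ⟨f x, by rw [image_singleton]⟩
  · let T : ℕ → Set XX := fun m => {x : XX | x.t = t ∧ m ≤ x.n}
    have hTanti : ∀ {i j : ℕ}, i ≤ j → T j ⊆ T i := fun h x hx => ⟨hx.1, h.trans hx.2⟩
    have hnot : ¬ ⋂₀ (range fun m => sat (f '' T m)) ⊆ (closure (f '' cyl {t}))ᶜ := by
      intro hsub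
      obtain ⟨K, ⟨m, rfl⟩, hK⟩ := hWF (range fun m => sat (f '' T m)) (closure (f '' cyl {t}))ᶜ
        (by
          rintro _ ⟨m, rfl⟩
          exact ⟨⟨f ⟨t, m⟩, subset_sat _ ⟨⟨t, m⟩, ⟨rfl, le_rfl⟩, rfl⟩⟩,
            sat_compact ((tail_compact t m).image hf), isSat_sat _⟩)
        (range_nonempty _)
        (by
          rintro _ ⟨i, rfl⟩ _ ⟨j, rfl⟩
          refine ⟨_, ⟨max i j, rfl⟩, subset_inter ?_ ?_⟩
          · exact sat_mono (image_mono (hTanti (le_max_left _ _)))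
          · exact sat_mono (image_mono (hTanti (le_max_right _ _))))
        isClosed_closure.isOpen_compl hsub
      have h1 : f ⟨t, m⟩ ∈ sat (f '' T m) := subset_sat _ ⟨⟨t, m⟩, ⟨rfl, le_rfl⟩, rfl⟩
      exact hK h1 (subset_closure ⟨⟨t, m⟩, rfl, rfl⟩)
    rw [not_subset] at hnot
    obtain ⟨y, hy1, hy2⟩ := hnot
    rw [mem_compl_iff, not_not] at hy2
    refine ⟨y, Subset.antisymm ?_ ?_⟩
    · refine closure_minimal ?_ isClosed_closure
      rintro _ ⟨⟨s, n⟩, hs, rfl⟩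
      have hs' : s = t := hs
      subst hs'
      rw [mem_closure_iff]
      intro V hV hfV
      refine ⟨y, ?_, rfl⟩
      have hop : IsOpen (f ⁻¹' V) := hV.preimage hf
      have hfin := hop.2 s ⟨n, hfV⟩
      obtain ⟨N, hN⟩ := hfin.bddAbove
      have hyN : y ∈ sat (f '' T (N + 1)) := hy1 _ ⟨N + 1, rfl⟩
      refine hyN V hV ?_
      rintro _ ⟨⟨s', k⟩, ⟨hs1, hk⟩, rfl⟩
      simp only at hs1 hk
      subst hs1
      by_contra hcon
      have : k ≤ N := hN hcon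
      omega
    · exact closure_minimal (singleton_subset_iff.mpr hy2) isClosed_closure

theorem keyb {C : Set YY} (hC : IsIrreducible C) {U : Set XX} (hU : IsOpen U)
    (h : ∀ p ∈ C, p ∉ box U) :
    (∃ x, x ∉ U ∧ ∀ p ∈ C, x ∈ p.1.2) ∨ (∃ t, t ∉ shadow U ∧ ∀ p ∈ C, t ∈ p.1.1) := by
  obtain ⟨Z, hZU, hZ⟩ := zorn_superset_nonempty
    {Z : Set XX | IsClosed Z ∧ ∀ p ∈ C, p ∉ box Zᶜ} (by
      intro c hc hchain hcne
      refine ⟨⋂₀ c, ⟨isClosed_sInter fun Z hZ => (hc hZ).1, fun p hp hpb => ?_⟩,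
        fun s hs => sInter_subset_of_mem hs⟩
      have heq : (⋂₀ c)ᶜ = ⋃₀ (compl '' c) := compl_sInter c
      rw [mem_box, heq] at hpb
      obtain ⟨V, ⟨Z, hZ, rfl⟩, hVp⟩ := cpt p.2.1 (𝒱 := compl '' c) (hcne.image _)
        (by rintro _ ⟨Z, hZ, rfl⟩; exact (hc hZ).1.isOpen_compl)
        (by
          rintro _ ⟨Z, hZ, rfl⟩ _ ⟨Z', hZ', rfl⟩
          rcases hchain.total hZ hZ' with h | h
          · exact ⟨Zᶜ, ⟨Z, hZ, rfl⟩, Subset.rfl, compl_subset_compl.mpr h⟩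
          · exact ⟨Z'ᶜ, ⟨Z', hZ', rfl⟩, compl_subset_compl.mpr h, Subset.rfl⟩)
        hpb.1 hpb.2
      exact (hc hZ).2 p hp hVp) Uᶜ ⟨hU.isClosed_compl, by simpa using h⟩
  have hZcl : IsClosed Z := hZ.prop.1
  have hZp : ∀ p ∈ C, p ∉ box Zᶜ := hZ.prop.2
  have hmin : ∀ Z' : Set XX, IsClosed Z' → Z' ⊆ Z → Z' ≠ Z → ∃ p ∈ C, p ∈ box Z'ᶜ := by
    intro Z' h1 h2 h3
    by_contra hcon
    push Not at hcon
    exact h3 (hZ.eq_of_subset ⟨h1, hcon⟩ h2)
  have hZirr : IsIrreducible Z := by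
    constructor
    · by_contra hcon
      rw [not_nonempty_iff_eq_empty] at hcon
      obtain ⟨p, hp⟩ := hC.1
      apply hZp p hp
      rw [hcon, compl_empty, box_univ]
      trivial
    · intro U1 U2 hU1 hU2 hn1 hn2
      by_contra hcon
      rw [not_nonempty_iff_eq_empty] at hcon
      have haux : ∀ U1 : Set XX, IsOpen U1 → (Z ∩ U1).Nonempty →
          ∃ p ∈ C, p ∈ box (Z \ U1)ᶜ := by
        intro U1 hU1 hn
        refine hmin _ (hZcl.inter hU1.isClosed_compl) sdiff_subset ?_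
        intro heq
        obtain ⟨x, hx1, hx2⟩ := hn
        rw [← heq] at hx1
        exact hx1.2 hx2
      obtain ⟨p1, hp1, hp1'⟩ := haux U1 hU1 hn1
      obtain ⟨p2, hp2, hp2'⟩ := haux U2 hU2 hn2
      have ho1 : IsOpen (Z \ U1)ᶜ := (hZcl.inter hU1.isClosed_compl).isOpen_compl
      have ho2 : IsOpen (Z \ U2)ᶜ := (hZcl.inter hU2.isClosed_compl).isOpen_compl
      obtain ⟨p, hp, hpb⟩ := hC.2 _ _ (isOpen_box ho1) (isOpen_box ho2) ⟨p1, hp1, hp1'⟩
        ⟨p2, hp2, hp2'⟩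
      apply hZp p hp
      rw [← box_inter ho1 ho2] at hpb
      have heq : (Z \ U1)ᶜ ∩ (Z \ U2)ᶜ = Zᶜ := by
        ext x
        constructor
        · rintro ⟨h1, h2⟩ hxZ
          have hx1 : x ∈ U1 := by
            by_contra h; exact h1 ⟨hxZ, h⟩
          have hx2 : x ∈ U2 := by
            by_contra h; exact h2 ⟨hxZ, h⟩
          have : x ∈ Z ∩ (U1 ∩ U2) := ⟨hxZ, hx1, hx2⟩
          rw [hcon] at this
          exact this
        · intro hx
          exact ⟨fun h => hx h.1, fun h => hx h.1⟩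
      rw [heq] at hpb
      exact hpb
  rcases irr_class hZcl hZirr with ⟨x, rfl⟩ | ⟨t, rfl⟩
  · left
    refine ⟨x, hZU rfl, fun p hp => ?_⟩
    by_contra hcon
    apply hZp p hp
    refine ⟨?_, ?_⟩
    · intro y hy hyx
      exact hcon (hyx ▸ hy)
    · rw [shadow_compl_of]
      · exact subset_univ _
      · intro t
        refine ((finite_singleton x).image XX.n).subset ?_
        intro n hn
        exact ⟨⟨t, n⟩, hn, rfl⟩
  · right
    refine ⟨t, ?_, fun p hp => ?_⟩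
    · rintro ⟨n, hn⟩
      exact hZU (show (⟨t, n⟩ : XX) ∈ cyl {t} from rfl) hn
    · by_contra hcon
      apply hZp p hp
      refine ⟨?_, ?_⟩
      · intro y hy hyx
        have : y.t = t := hyx
        exact hcon (this ▸ p.2.1.sub y hy)
      · intro s hs
        refine ⟨0, ?_⟩
        intro hst
        have : s = t := hst
        exact hcon (this ▸ hs)

theorem exists_uncountable_avoid {B : Set CT} (hB : IsClosed B) (hBu : ¬ B.Countable)
    (F : Finset CT) : ∃ B' ⊆ B, IsClosed B' ∧ ¬ B'.Countable ∧ ∀ t ∈ F, t ∉ B' := by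
  classical
  induction F using Finset.induction_on with
  | empty => exact ⟨B, Subset.rfl, hB, hBu, by simp⟩
  | @insert a F ha ih =>
    obtain ⟨B', h1, h2, h3, h4⟩ := ih
    by_contra hcon
    push Not at hcon
    apply h3
    have hk : ∀ k : ℕ, (B' ∩ {t | t k ≠ a k}).Countable := by
      intro k
      by_contra hk
      have hcl : IsClosed {t : CT | t k ≠ a k} := by
        have : IsClopen {s : CT | s k = a k} :=
          (isClopen_discrete {a k}).preimage (continuous_apply k)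
        exact this.compl.isClosed
      obtain ⟨t, ht, htB⟩ := hcon (B' ∩ {t | t k ≠ a k}) (inter_subset_left.trans h1)
        (h2.inter hcl) hk
      rcases Finset.mem_insert.mp ht with rfl | ht
      · exact htB.2 rfl
      · exact h4 t ht htB.1
    have hsub : B' ⊆ {a} ∪ ⋃ k : ℕ, (B' ∩ {t | t k ≠ a k}) := by
      intro t ht
      by_cases hta : t = a
      · exact Or.inl hta
      · right
        obtain ⟨k, hk⟩ := Function.ne_iff.mp hta
        exact mem_iUnion.mpr ⟨k, ht, hk⟩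
    exact ((countable_singleton a).union (countable_iUnion hk)).mono hsub

theorem wfY : TopW YY topY := by
  refine ⟨t0Y, ?_⟩
  intro 𝒦 𝒰 h𝒦 hne hfil hU hsub
  by_contra hcon
  push Not at hcon
  obtain ⟨C, hCU, hCcl, hCirr, hCm, hc, -⟩ :=
    rudin (fun K hK => (h𝒦 K hK).2.1) hne hfil hU hcon
  obtain ⟨K0, hK0⟩ := hne
  obtain ⟨n0, F0, hF0⟩ := bd_compactY (h𝒦 K0 hK0).2.1
  obtain ⟨q, hq⟩ := hCirr.1
  let HM : Set CT := {t | ∀ p ∈ C, t ∈ p.1.1}
  let LM : Set XX := {x | ∀ p ∈ C, x ∈ p.1.2}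
  -- contrapositive of the key lemma
  have hkey : ∀ U : Set XX, IsOpen U → LM ⊆ U → HM ⊆ shadow U → ∃ p ∈ C, p ∈ box U := by
    intro U hU h1 h2
    by_contra hcon3
    push Not at hcon3
    rcases keyb hCirr hU hcon3 with ⟨x, hx1, hx2⟩ | ⟨t, ht1, ht2⟩
    · exact hx1 (h1 hx2)
    · exact ht1 (h2 ht2)
  have hgood : Good (HM, LM) := by
    refine ⟨?_, ?_, ?_, ?_, ?_⟩
    · by_contra hemp
      have hemp' : HM = ∅ := not_nonempty_iff_eq_empty.mp hemp
      have hLemp : LM ⊆ ∅ := by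
        intro x hx
        have : x.t ∈ HM := fun p hp => p.2.1.sub x (hx p hp)
        rw [hemp'] at this
        exact this.elim
      obtain ⟨p, hp, hpb⟩ := hkey ∅ isOpen_empty hLemp (by rw [hemp']; exact empty_subset _)
      obtain ⟨t, ht⟩ := p.2.1.ne
      have := hpb.2 ht
      rw [shadow_empty] at this
      exact this
    · have : HM = ⋂ p ∈ C, p.1.1 := by ext t; simp [HM]
      show IsClosed HM
      rw [this]
      exact isClosed_biInter fun p _ => p.2.1.cl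
    · intro x hx p hp
      exact p.2.1.sub x (hx p hp)
    · intro n
      have : col LM n = ⋂ p ∈ C, col p.1.2 n := by ext t; simp [LM, col]
      show IsClosed (col LM n)
      rw [this]
      exact isClosed_biInter fun p _ => p.2.1.colcl n
    · obtain ⟨n1, F1, hF1⟩ := q.2.1.bd
      exact ⟨n1, F1, fun x hx => hF1 x (hx q hq)⟩
  have hsmall : Small (HM, LM) := by
    intro B hB hBH hBL
    by_contra hBu
    obtain ⟨B', hB'B, hB'c, hB'u, hB'F⟩ := exists_uncountable_avoid hB hBu F0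
    let E : Set XX := {x | x.t ∈ B' ∧ x.n ≤ n0}
    have hErow : ∀ t, {n | (⟨t, n⟩ : XX) ∈ E}.Finite := fun t =>
      (finite_Iic n0).subset fun n hn => hn.2
    have hEop : IsOpen Eᶜ := by
      apply isOpen_compl_of _ hErow
      intro n
      by_cases hn : n ≤ n0
      · have : col E n = B' := by ext t; simp [E, col, hn]
        rw [this]; exact hB'c
      · have : col E n = ∅ := by ext t; simp [E, col, hn]
        rw [this]; exact isClosed_empty
    obtain ⟨p, hp, hpb⟩ := hkey Eᶜ hEop (by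
      intro x hx hxE
      exact hBL x hx (hB'B hxE.1)) (by rw [shadow_compl_of hErow]; exact subset_univ _)
    obtain ⟨K, hK, hKs⟩ := hc (box Eᶜ) (isOpen_box hEop) ⟨p, hp, hpb⟩
    obtain ⟨K1, hK1, hK1s⟩ := hfil K hK K0 hK0
    obtain ⟨N, hN1, hN2⟩ := hCm K1 hK1
    have hNb : N ∈ box Eᶜ := hKs ⟨hN1, (hK1s hN2).1⟩
    have hN0 : N ∈ K0 := (hK1s hN2).2
    apply hB'u
    apply N.2.2 B' hB'c
    · intro t ht
      exact hBH (hB'B ht) N hN1
    · intro x hx hxB
      rcases hF0 N hN0 x hx with h | h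
      · exact hNb.1 hx ⟨hxB, h⟩
      · exact hB'F _ h hxB
  let M : YY := ⟨(HM, LM), hgood, hsmall⟩
  have hM : M ∈ ⋂₀ 𝒦 := by
    intro K hK
    apply isSat_iff.mp (h𝒦 K hK).2.2
    intro V hV hKV
    obtain ⟨N, hN1, hN2⟩ := hCm K hK
    obtain ⟨U, hU', hNU, hUV⟩ := hV N (hKV hN2)
    apply hUV
    refine ⟨?_, ?_⟩
    · intro x hx
      exact hNU.1 (hx N hN1)
    · intro t ht
      exact hNU.2 (ht N hN1)
  obtain ⟨U, hU', hMU, hUV⟩ := hU M (hsub hM)
  obtain ⟨p, hp, hpb⟩ := hkey U hU' hMU.1 hMU.2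
  exact hCU hp (hUV hpb)

/-- Projection to the Cantor space. -/
def pr (x : XX) : CT := x.t

theorem continuous_pr : Continuous pr := ⟨fun _ hC => isOpen_cyl hC⟩

theorem continuous_slice (n : ℕ) : Continuous (fun t : CT => (⟨t, n⟩ : XX)) :=
  ⟨fun _ hU => hU.1 n⟩

theorem isClosed_level (n : ℕ) : IsClosed {x : XX | x.n = n} := by
  rw [← isOpen_compl_iff]
  apply isOpen_compl_of
  · intro m
    by_cases hm : m = n
    · have : col {x : XX | x.n = n} m = univ := by ext t; simp [col, hm]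
      rw [this]; exact isClosed_univ
    · have : col {x : XX | x.n = n} m = ∅ := by ext t; simp [col, hm]
      rw [this]; exact isClosed_empty
  · intro t
    exact (finite_singleton n).subset fun m hm => hm

theorem good_compact {K : Set XX} (hne : K.Nonempty) (hK : IsCompact K) : Good (pr '' K, K) := by
  refine ⟨hne.image _, (hK.image continuous_pr).isClosed, fun x hx => ⟨x, hx, rfl⟩, ?_,
    bd_compact hK⟩
  intro n
  have : col K n = pr '' (K ∩ {x : XX | x.n = n}) := by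
    ext t
    constructor
    · intro ht; exact ⟨⟨t, n⟩, ⟨ht, rfl⟩, rfl⟩
    · rintro ⟨⟨s, m⟩, ⟨h1, h2⟩, h3⟩
      have h2' : m = n := h2
      have h3' : s = t := h3
      subst h2' h3'
      exact h1
  show IsClosed (col K n)
  rw [this]
  exact ((hK.inter_right (isClosed_level n)).image continuous_pr).isClosed

theorem small_compact (K : Set XX) : Small (pr '' K, K) := by
  intro B _ hB1 hB2
  have : B = ∅ := by
    rw [eq_empty_iff_forall_notMem]
    intro t ht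
    obtain ⟨x, hx, rfl⟩ := hB1 ht
    exact hB2 x hx ht
  rw [this]
  exact countable_empty

/-- The comparison map. -/
def emb (K : KS XX) : YY := ⟨(pr '' K.1, K.1), good_compact K.2.1 K.2.2.1, small_compact K.1⟩

theorem emb_mem_box {K : KS XX} {U : Set XX} : emb K ∈ box U ↔ K.1 ⊆ U := by
  constructor
  · intro h; exact h.1
  · intro h
    refine ⟨h, ?_⟩
    rintro _ ⟨x, hx, rfl⟩
    exact ⟨x.n, h hx⟩

theorem continuous_emb : Continuous emb := by
  refine ⟨fun 𝒱 h𝒱 => ?_⟩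
  rw [isOpenKS_iff]
  intro K hK
  obtain ⟨U, hU, hKU, hUs⟩ := h𝒱 (emb K) hK
  exact ⟨U, hU, emb_mem_box.mp hKU, fun K' h => hUs (emb_mem_box.mpr h)⟩

/-- Compact sets are saturated. -/
theorem saturated (K : Set XX) : IsSat K := by
  rw [isSat_iff]
  intro x h
  by_contra hx
  have hop : IsOpen ({x}ᶜ : Set XX) := (isClosed_of_finite (finite_singleton x)).isOpen_compl
  exact h _ hop (fun y hy hyx => hx (hyx ▸ hy)) rfl

/-- The irreducible closed family. -/
def AA : Set (KS XX) := {K | pr '' K.1 = univ}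

theorem exists_full {U : Set XX} (hU : IsOpen U) (hs : shadow U = univ) :
    ∃ K : KS XX, K ∈ AA ∧ K.1 ⊆ U := by
  have key : ∃ K : Set XX, K ⊆ U ∧ IsCompact K ∧ (univ : Set CT) ⊆ pr '' K := by
    refine (isCompact_univ (X := CT)).induction_on (p := fun S => ∃ K : Set XX, K ⊆ U ∧
      IsCompact K ∧ S ⊆ pr '' K) ?_ ?_ ?_ ?_
    · exact ⟨∅, empty_subset _, isCompact_empty, empty_subset _⟩
    · rintro s t hst ⟨K, h1, h2, h3⟩
      exact ⟨K, h1, h2, hst.trans h3⟩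
    · rintro s t ⟨K, h1, h2, h3⟩ ⟨K', h1', h2', h3'⟩
      refine ⟨K ∪ K', union_subset h1 h1', h2.union h2', ?_⟩
      rw [image_union]
      exact union_subset_union h3 h3'
    · intro t _
      have ht : t ∈ shadow U := by rw [hs]; trivial
      obtain ⟨n, hn⟩ := ht
      obtain ⟨C, hC, htC, hCU⟩ := exists_compact_subset (hU.1 n) hn
      refine ⟨C, mem_nhdsWithin_of_mem_nhds (mem_interior_iff_mem_nhds.mp htC),
        (fun t => (⟨t, n⟩ : XX)) '' C, ?_, hC.image (continuous_slice n), ?_⟩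
      · rintro _ ⟨s, hs, rfl⟩
        exact hCU hs
      · intro s hs
        exact ⟨⟨s, n⟩, ⟨s, hs, rfl⟩, rfl⟩
  obtain ⟨K, hKU, hK, hKs⟩ := key
  have hne : K.Nonempty := by
    obtain ⟨x, hx, -⟩ := hKs (mem_univ (fun _ => false : CT))
    exact ⟨x, hx⟩
  exact ⟨⟨K, hne, hK, saturated K⟩, eq_univ_of_univ_subset hKs, hKU⟩

theorem shadow_of_mem {K : KS XX} (hK : K ∈ AA) {U : Set XX} (h : K.1 ⊆ U) : shadow U = univ := by
  rw [eq_univ_iff_forall]
  intro t
  have : t ∈ pr '' K.1 := by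
    have h2 : pr '' K.1 = univ := hK
    rw [h2]; trivial
  obtain ⟨x, hx, rfl⟩ := this
  exact ⟨x.n, h hx⟩

theorem isClosed_AA : IsClosed AA := by
  rw [← isOpen_compl_iff, isOpenKS_iff]
  intro K hK
  have : ∃ t, t ∉ pr '' K.1 := by
    by_contra hcon
    push Not at hcon
    exact hK (eq_univ_of_forall hcon)
  obtain ⟨t, ht⟩ := this
  refine ⟨cyl {t}ᶜ, isOpen_corow t, ?_, ?_⟩
  · intro x hx hxt
    exact ht ⟨x, hx, hxt⟩
  · intro K' hK' hmem
    have h2 : pr '' K'.1 = univ := hmem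
    have : t ∈ pr '' K'.1 := by rw [h2]; trivial
    obtain ⟨x, hx, hxt⟩ := this
    exact hK' hx hxt

theorem isIrreducible_AA : IsIrreducible AA := by
  constructor
  · obtain ⟨K, hK, -⟩ := exists_full isOpen_univ shadow_univ
    exact ⟨K, hK⟩
  · rintro 𝒰 𝒱 h𝒰 h𝒱 ⟨K1, hK1, hK1'⟩ ⟨K2, hK2, hK2'⟩
    obtain ⟨U, hU, hKU, hUs⟩ := isOpenKS_iff.mp h𝒰 K1 hK1'
    obtain ⟨V, hV, hKV, hVs⟩ := isOpenKS_iff.mp h𝒱 K2 hK2'
    obtain ⟨K, hK, hKs⟩ := exists_full (hU.inter hV) (by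
      rw [shadow_inter hU hV, shadow_of_mem hK1 hKU, shadow_of_mem hK2 hKV, inter_self])
    exact ⟨K, hK, hUs K (hKs.trans inter_subset_left), hVs K (hKs.trans inter_subset_right)⟩

theorem not_countable_CT : ¬ (univ : Set CT).Countable := by
  intro h
  rw [countable_univ_iff] at h
  obtain ⟨g, hg⟩ := exists_surjective_nat CT
  obtain ⟨m, hm⟩ := hg (fun n => !(g n n))
  have := congrFun hm m
  simp at this

theorem no_point (y : YY) : closure (emb '' AA) ≠ closure {y} := by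
  intro heq
  have hmem : ∀ K ∈ AA, ∀ U : Set XX, IsOpen U → K.1 ⊆ U → y ∈ box U := by
    intro K hK U hU hKU
    have h1 : emb K ∈ closure {y} := heq ▸ subset_closure ⟨K, hK, rfl⟩
    rw [mem_closure_iff] at h1
    obtain ⟨z, hz, hzy⟩ := h1 (box U) (isOpen_box hU) (emb_mem_box.mpr hKU)
    rw [mem_singleton_iff] at hzy
    exact hzy ▸ hz
  have hfull : ∀ U : Set XX, IsOpen U → shadow U = univ → y ∈ box U := by
    intro U hU hs
    obtain ⟨K, hK, hKU⟩ := exists_full hU hs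
    exact hmem K hK U hU hKU
  have hL : ∀ x, x ∉ y.1.2 := by
    intro x hx
    have hop : IsOpen ({x}ᶜ : Set XX) := (isClosed_of_finite (finite_singleton x)).isOpen_compl
    have hsh : shadow ({x}ᶜ : Set XX) = univ := by
      apply shadow_compl_of
      intro t
      refine ((finite_singleton x).image XX.n).subset ?_
      intro n hn
      exact ⟨⟨t, n⟩, hn, rfl⟩
    exact (hfull _ hop hsh).1 hx rfl
  have hH : y.1.1 = univ := by
    by_contra hne
    obtain ⟨t, ht⟩ := (ne_univ_iff_exists_notMem _).mp hne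
    have hyb : y ∈ box (cyl {t}ᶜ) := by
      refine ⟨fun x hx => (hL x hx).elim, ?_⟩
      rw [shadow_cyl]
      intro s hs hst
      exact ht (hst ▸ hs)
    have hyc : y ∈ closure (emb '' AA) := heq ▸ subset_closure rfl
    rw [mem_closure_iff] at hyc
    obtain ⟨_, hz, ⟨K, hK, rfl⟩⟩ := hyc _ (isOpen_box (isOpen_corow t)) hyb
    have h3 := shadow_of_mem hK (emb_mem_box.mp hz)
    rw [shadow_cyl] at h3
    have : t ∈ ({t}ᶜ : Set CT) := by rw [h3]; trivial
    exact this rfl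
  apply not_countable_CT
  apply y.2.2 univ isClosed_univ
  · rw [hH]
  · intro x hx
    exact (hL x hx).elim

/-- The class of well-filtered spaces is an adequate Smyth category, and there is a well-filtered
determined `T0` space whose Smyth power space has an irreducible closed subset which is not a
well-filtered determined set. -/
theorem result : IsBaseClass TopW ∧ IsAdequate TopW ∧ IsSmyth TopW ∧
    ∃ (X : Type) (_ : TopologicalSpace X), T0Space X ∧ IsDetSpace TopW X ∧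
      ∃ A : Set (KS X), IsClosed A ∧ IsIrreducible A ∧ ¬ IsDetSet TopW A := by
  refine ⟨topW_base, topW_adequate, topW_smyth, XX, topX, t0X, ?_, AA, isClosed_AA,
    isIrreducible_AA, ?_⟩
  · ext A
    constructor
    · rintro ⟨h1, h2⟩
      exact ⟨h1, wfdX h1 h2⟩
    · rintro ⟨h1, h2⟩
      exact ⟨h1, detSet_irr h2⟩
  · intro h
    obtain ⟨y, hy, -⟩ := h YY topY emb wfY continuous_emb
    exact no_point y hy

end Pool.Agent.Results.MP_360cb4_gt.NotDetermined
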